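import Mathlib
import Pool.Agent.H319R2.LeighBridge

set_option autoImplicit false

/-!
In a class of Leigh's chain with `Λ_C < 1` almost all trajectories come down to a power of the
logarithm.
-/

namespace Pool.Agent.Results.MP_39d40e_nt.AlmostAllDescent

open Pool.Agent.H319R2.Leigh

/-- Let `C` be a finite closed communicating class of Leigh's chain of a generalised Collatz map
`T`, with `Λ_C < 1`. There are `A` and `κ > 0` such that for all `X ≥ 2`, `Y ≥ 1` at most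
`A X (log X) ^ (2 d + 4) Y ^ (-κ)` integers `x` in `S_C` with `|x| ≤ X` have a trajectory that never
enters `(-Y, Y)`. -/
theorem result (d : ℕ) (m r b : ℤ → ℤ) (e : ℤ → ℕ) (D : Data d m r b e) (C : Finset (ℤ × ℕ))
    (ρ : ℤ × ℕ → ℝ) (hC : Class d m r e C ρ) (hL : Lam d m C ρ < 1) :
    ∃ A κ : ℝ, 0 < κ ∧ ∀ X Y : ℝ, 2 ≤ X → 1 ≤ Y →
      (Set.ncard {x : ℤ | (x ∈ S d C ∧ ∀ n : ℕ, Y ≤ |(((T d m r)^[n] x : ℤ) : ℝ)|) ∧
        |(x : ℝ)| ≤ X} : ℝ) ≤ A * X * Real.log X ^ (2 * d + 4) * Y ^ (-κ) := by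
  obtain ⟨hinv, η, hη0, hη1, hsm⟩ := small D hC hL
  obtain ⟨A, hA0, hA⟩ := (gm D).descent (S d C) hinv η hη0 hη1 hsm
  refine ⟨A, 1 - η, by linarith, ?_⟩
  intro X Y hX hY
  apply ncard_le (A := {x : ℤ | x ∈ S d C ∧ ∀ n : ℕ, Y ≤ |(((T d m r)^[n] x : ℤ) : ℝ)|})
  intro F hF
  have h := hA X Y hX hY F (fun x hx => ⟨(hF x hx).1.1, (hF x hx).2, (hF x hx).1.2⟩)
  rw [neg_sub]
  exact h

end Pool.Agent.Results.MP_39d40e_nt.AlmostAllDescent
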