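import Mathlib
import Pool.Agent.H319R3.GC.Main

set_option autoImplicit false

/-!
Generalised Collatz maps of coprime type with `∏ |m_i / d| < 1`: almost all orbits (natural density)
attain almost bounded values.
-/

namespace Pool.Agent.Results.MP_39d40e_nt.AlmostBounded

open Finset Filter Topology

/-- The generalised Collatz map `T(x) = (m_i x - r_i) / d` for `x ≡ i mod d`, `0 ≤ i < d`. -/
def T (d : ℕ) (m r : ℕ → ℤ) (x : ℤ) : ℤ := (m (x % d).toNat * x - r (x % d).toNat) / d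

/-- `T` of coprime type (`gcd(m_i, d) = 1`) with `Λ < 1`, that is `∏ |m_i / d| < 1`.
(1) For every `B` there is `C` such that for all `X ≥ 1`, `y ≥ 2` at most `C X / (log y) ^ B` of the
integers `x` with `|x| ≤ X` have an orbit which never enters `[-y, y]`.
(2) For every `ε > 0` there is a finite set `F` of integers such that for every `X ≥ 1` at most `ε X`
of the integers `x` with `|x| ≤ X` have an orbit which misses `F`.
(3) If `f(x) → ∞` as `|x| → ∞`, then the `x` whose orbit stays `≥ f(x)` in absolute value have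
natural density zero. -/
theorem result (d : ℕ) (hd : 2 ≤ d) (m r : ℕ → ℤ) (hm : ∀ i < d, IsCoprime (m i) (d : ℤ))
    (hr : ∀ i < d, r i ≡ i * m i [ZMOD d]) (hL : ∏ i ∈ range d, |(m i : ℝ) / d| < 1) :
    (∀ B : ℕ, ∃ C : ℝ, 0 < C ∧ ∀ X y : ℝ, 1 ≤ X → 2 ≤ y →
      (Set.ncard {x : ℤ | |(x : ℝ)| ≤ X ∧ ∀ n : ℕ, y < |(((T d m r)^[n] x : ℤ) : ℝ)|} : ℝ)
        ≤ C * X / Real.log y ^ B) ∧
    (∀ ε : ℝ, 0 < ε → ∃ F : Finset ℤ, ∀ X : ℝ, 1 ≤ X →
      (Set.ncard {x : ℤ | |(x : ℝ)| ≤ X ∧ ∀ n : ℕ, (T d m r)^[n] x ∉ F} : ℝ) ≤ ε * X) ∧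
    (∀ f : ℤ → ℝ, Tendsto f cofinite atTop →
      Tendsto (fun N : ℕ => (Set.ncard {x : ℤ | |x| ≤ (N : ℤ) ∧
        ∀ n : ℕ, f x ≤ |(((T d m r)^[n] x : ℤ) : ℝ)|} : ℝ) / (2 * (N : ℝ) + 1)) atTop (𝓝 0)) := by
  have hd0 : (0 : ℝ) < d := by positivity
  have hadm : ∀ i < d, (d : ℤ) ∣ m i * i - r i := by
    intro i hi
    have h1 := (hr i hi).dvd
    rwa [mul_comm (i : ℤ)] at h1
  have hc : ∏ i ∈ range d, (m i).natAbs < d ^ d := by
    have h1 : ∏ i ∈ range d, |(m i : ℝ) / d| = (∏ i ∈ range d, |(m i : ℝ)|) / (d : ℝ) ^ d := by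
      simp only [abs_div, abs_of_pos hd0]
      rw [Finset.prod_div_distrib, Finset.prod_const, card_range]
    rw [h1, div_lt_one (by positivity)] at hL
    have h2 : ((∏ i ∈ range d, (m i).natAbs : ℕ) : ℝ) = ∏ i ∈ range d, |(m i : ℝ)| := by
      push_cast
      refine Finset.prod_congr rfl fun i _ => ?_
      rw [Nat.cast_natAbs]
      push_cast
      rfl
    have h3 : ((∏ i ∈ range d, (m i).natAbs : ℕ) : ℝ) < ((d ^ d : ℕ) : ℝ) := by
      rw [h2]; push_cast; exact hL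
    exact_mod_cast h3
  have key : ∀ B : ℕ, ∃ C : ℝ, 0 < C ∧ ∀ X y : ℝ, 1 ≤ X → 2 ≤ y →
      (Set.ncard {x : ℤ | |(x : ℝ)| ≤ X ∧ ∀ n : ℕ, y < |(((T d m r)^[n] x : ℤ) : ℝ)|} : ℝ)
        ≤ C * X / Real.log y ^ B := fun B => H319R3.GC.main_all hd hm hadm hc B
  have fin : ∀ (X : ℝ) (p : ℤ → Prop), {x : ℤ | |(x : ℝ)| ≤ X ∧ p x}.Finite := by
    intro X p
    refine (Set.finite_Icc (-⌊X⌋) ⌊X⌋).subset ?_
    intro x hx
    have h1 := abs_le.1 hx.1
    constructor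
    · have : ((-x : ℤ) : ℝ) ≤ X := by push_cast; linarith [h1.1]
      have := Int.le_floor.2 this
      omega
    · exact Int.le_floor.2 h1.2
  have key2 : ∀ ε : ℝ, 0 < ε → ∃ Y : ℝ, 2 ≤ Y ∧ ∀ X : ℝ, 1 ≤ X →
      (Set.ncard {x : ℤ | |(x : ℝ)| ≤ X ∧ ∀ n : ℕ, Y < |(((T d m r)^[n] x : ℤ) : ℝ)|} : ℝ)
        ≤ ε * X := by
    intro ε hε
    obtain ⟨C, hC, h⟩ := key 1
    refine ⟨max 2 (Real.exp (C / ε)), le_max_left _ _, ?_⟩
    intro X hX
    refine (h X _ hX (le_max_left _ _)).trans ?_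
    have h1 : C / ε ≤ Real.log (max 2 (Real.exp (C / ε))) := by
      rw [← Real.log_exp (C / ε)]
      exact Real.log_le_log (Real.exp_pos _) (by rw [Real.log_exp]; exact le_max_right _ _)
    have h2 : 0 < C / ε := by positivity
    rw [pow_one, div_le_iff₀ (by linarith)]
    have h3 : C ≤ ε * Real.log (max 2 (Real.exp (C / ε))) := by
      rw [div_le_iff₀ hε] at h1
      linarith
    nlinarith
  refine ⟨key, ?_, ?_⟩
  · intro ε hε
    obtain ⟨Y, hY, h⟩ := key2 ε hε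
    refine ⟨Finset.Icc (-⌊Y⌋) ⌊Y⌋, ?_⟩
    intro X hX
    refine le_trans ?_ (h X hX)
    have hsub : {x : ℤ | |(x : ℝ)| ≤ X ∧ ∀ n : ℕ, (T d m r)^[n] x ∉ Finset.Icc (-⌊Y⌋) ⌊Y⌋} ⊆
        {x : ℤ | |(x : ℝ)| ≤ X ∧ ∀ n : ℕ, Y < |(((T d m r)^[n] x : ℤ) : ℝ)|} := by
      rintro x ⟨hx, hx2⟩
      refine ⟨hx, fun n => ?_⟩
      by_contra hcon
      push Not at hcon
      apply hx2 n
      have h1 := abs_le.1 hcon
      rw [Finset.mem_Icc]
      constructor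
      · have : ((-((T d m r)^[n] x) : ℤ) : ℝ) ≤ Y := by push_cast; linarith [h1.1]
        have := Int.le_floor.2 this
        omega
      · exact Int.le_floor.2 h1.2
    exact_mod_cast Set.ncard_le_ncard hsub (fin _ _)
  · intro f hf
    rw [Metric.tendsto_atTop]
    intro ε hε
    obtain ⟨Y, hY, h⟩ := key2 (ε / 2) (by positivity)
    have hfin : {x : ℤ | ¬ (Y < f x)}.Finite := by
      have := hf.eventually (eventually_gt_atTop Y)
      rwa [Filter.eventually_cofinite] at this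
    set K : ℝ := ({x : ℤ | ¬ (Y < f x)}.ncard : ℝ) with hK
    have hK0 : 0 ≤ K := by rw [hK]; positivity
    obtain ⟨N₀, hN₀⟩ := exists_nat_gt (2 * K / ε)
    refine ⟨N₀ + 1, fun N hN => ?_⟩
    have hN1 : (1 : ℝ) ≤ N := by
      have : 1 ≤ N := by omega
      exact_mod_cast this
    have hN2 : (N₀ : ℝ) ≤ N := by
      have : N₀ ≤ N := by omega
      exact_mod_cast this
    rw [Real.dist_eq, sub_zero, abs_of_nonneg (by positivity), div_lt_iff₀ (by positivity)]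
    have hsub : {x : ℤ | |x| ≤ (N : ℤ) ∧ ∀ n : ℕ, f x ≤ |(((T d m r)^[n] x : ℤ) : ℝ)|} ⊆
        {x : ℤ | |(x : ℝ)| ≤ (N : ℝ) ∧ ∀ n : ℕ, Y < |(((T d m r)^[n] x : ℤ) : ℝ)|} ∪
        {x : ℤ | ¬ (Y < f x)} := by
      rintro x ⟨hx, hx2⟩
      by_cases hY2 : Y < f x
      · left
        refine ⟨?_, fun n => lt_of_lt_of_le hY2 (hx2 n)⟩
        exact_mod_cast hx
      · right; exact hY2
    have h1 : (Set.ncard {x : ℤ | |x| ≤ (N : ℤ) ∧
        ∀ n : ℕ, f x ≤ |(((T d m r)^[n] x : ℤ) : ℝ)|} : ℝ) ≤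
        (Set.ncard {x : ℤ | |(x : ℝ)| ≤ (N : ℝ) ∧
          ∀ n : ℕ, Y < |(((T d m r)^[n] x : ℤ) : ℝ)|} : ℝ) + K := by
      have h2 := Set.ncard_le_ncard hsub ((fin _ _).union hfin)
      have h3 := Set.ncard_union_le {x : ℤ | |(x : ℝ)| ≤ (N : ℝ) ∧
        ∀ n : ℕ, Y < |(((T d m r)^[n] x : ℤ) : ℝ)|} {x : ℤ | ¬ (Y < f x)}
      rw [hK]
      exact_mod_cast h2.trans h3
    have h4 := h N hN1
    have h5 : K < ε / 2 * N₀ := by
      rw [div_lt_iff₀ hε] at hN₀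
      linarith
    have h6 : ε / 2 * N₀ ≤ ε / 2 * N := by gcongr
    nlinarith

end Pool.Agent.Results.MP_39d40e_nt.AlmostBounded
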