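import Mathlib
import Pool.Agent.H319R3.DN.T13
import Pool.Agent.H319R3.DN.T14
import Pool.Agent.H319R3.GC.Main

set_option autoImplicit false

/-!
Generalised Collatz maps of coprime type with `∏ |m_i / d| < 1`: the natural densities of all
invariant sets.
-/

namespace Pool.Agent.Results.MP_39d40e_nt.NaturalDensities

open Finset Filter Topology

/-- The generalised Collatz map `T(x) = (m_i x - r_i) / d` for `x ≡ i mod d`, `0 ≤ i < d`. -/
def T (d : ℕ) (m r : ℕ → ℤ) (x : ℤ) : ℤ := (m (x % d).toNat * x - r (x % d).toNat) / d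

/-- `S` is invariant: `x ∈ S` if and only if `T x ∈ S` (unions of classes of trajectories that
meet). -/
def Invariant (d : ℕ) (m r : ℕ → ℤ) (S : Set ℤ) : Prop := ∀ x : ℤ, x ∈ S ↔ T d m r x ∈ S

/-- `S` has natural density `δ` on the side `σ` (`σ = 1`: positive integers, `σ = -1`: negative
integers): `#{x ∈ S : 1 ≤ σ x ≤ N} / N → δ`. -/
def HasDensity (S : Set ℤ) (σ : ℤ) (δ : ℝ) : Prop :=
  Tendsto (fun N : ℕ => (Set.ncard {x : ℤ | x ∈ S ∧ 1 ≤ σ * x ∧ σ * x ≤ N} : ℝ) / N) atTop (𝓝 δ)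

/-- `T` of coprime type (`gcd(m_i, d) = 1`) with `Λ < 1`, that is `∏ |m_i / d| < 1`, and not all
`|m_i|` equal.
(1) Every invariant set has a natural density on each side; the two densities are equal if some
`m_i < 0`.
(2) The densities are countably additive on disjoint invariant sets.
(3) For every `B` there is `C` such that an invariant set that contains no integer of `[-y, y]` has
density at most `C / (log y) ^ B`. -/
theorem result (d : ℕ) (hd : 2 ≤ d) (m r : ℕ → ℤ) (hm : ∀ i < d, IsCoprime (m i) (d : ℤ))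
    (hr : ∀ i < d, r i ≡ i * m i [ZMOD d]) (hL : ∏ i ∈ range d, |(m i : ℝ) / d| < 1)
    (hne : ∃ i < d, ∃ j < d, |m i| ≠ |m j|) :
    (∀ S : Set ℤ, Invariant d m r S → ∃ a b : ℝ, HasDensity S 1 a ∧ HasDensity S (-1) b ∧
      ((∃ i < d, m i < 0) → a = b)) ∧
    (∀ S : ℕ → Set ℤ, (∀ n, Invariant d m r (S n)) → (∀ n n', n ≠ n' → Disjoint (S n) (S n')) →
      ∀ σ : ℤ, (σ = 1 ∨ σ = -1) → ∀ δ : ℕ → ℝ, (∀ n, HasDensity (S n) σ (δ n)) →
        Summable δ ∧ HasDensity (⋃ n, S n) σ (∑' n, δ n)) ∧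
    (∀ B : ℕ, ∃ C : ℝ, 0 < C ∧ ∀ S : Set ℤ, Invariant d m r S → ∀ y : ℝ, 2 ≤ y →
      (∀ x ∈ S, y < |(x : ℝ)|) → ∀ σ : ℤ, (σ = 1 ∨ σ = -1) → ∀ δ : ℝ, HasDensity S σ δ →
        δ ≤ C / Real.log y ^ B) := by
  obtain ⟨i, hi, j, hj, hij⟩ := hne
  have hij' : (m i).natAbs ≠ (m j).natAbs := by
    intro hcon
    apply hij
    rw [Int.abs_eq_natAbs, Int.abs_eq_natAbs, hcon]
  have hd0 : (0 : ℝ) < d := by positivity
  have hadm : ∀ i < d, (d : ℤ) ∣ m i * i - r i := by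
    intro i hi
    have h1 := (hr i hi).dvd
    rwa [mul_comm (i : ℤ)] at h1
  have hc : ∏ i ∈ range d, (m i).natAbs < d ^ d := by
    have h1 : ∏ i ∈ range d, |(m i : ℝ) / d| = (∏ i ∈ range d, |(m i : ℝ)|) / (d : ℝ) ^ d := by
      simp only [abs_div, abs_of_pos hd0]
      rw [Finset.prod_div_distrib, Finset.prod_const, card_range]
    rw [h1, div_lt_one (by positivity)] at hL
    have h2 : ((∏ i ∈ range d, (m i).natAbs : ℕ) : ℝ) = ∏ i ∈ range d, |(m i : ℝ)| := by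
      push_cast
      refine Finset.prod_congr rfl fun i _ => ?_
      rw [Nat.cast_natAbs]
      push_cast
      rfl
    have h3 : ((∏ i ∈ range d, (m i).natAbs : ℕ) : ℝ) < ((d ^ d : ℕ) : ℝ) := by
      rw [h2]; push_cast; exact hL
    exact_mod_cast h3
  have hnz : ∀ i ∈ range d, 1 ≤ (m i).natAbs := by
    intro i hi
    rcases Nat.eq_zero_or_pos (m i).natAbs with h0 | h0
    · exfalso
      have h1 := hm i (mem_range.1 hi)
      rw [Int.natAbs_eq_zero.1 h0] at h1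
      have h2 := isCoprime_zero_left.1 h1
      have h3 := Int.isUnit_iff.1 h2
      omega
    · exact h0
  have hbig : 2 ≤ ∏ i ∈ range d, (m i).natAbs := by
    have h1 : 2 ≤ (m i).natAbs ∨ 2 ≤ (m j).natAbs := by
      have h2 := hnz i (mem_range.2 hi)
      have h3 := hnz j (mem_range.2 hj)
      omega
    have h4 : ∀ l < d, (m l).natAbs ≤ ∏ i ∈ range d, (m i).natAbs := by
      intro l hl
      exact Nat.le_of_dvd (Finset.prod_pos fun i hi => hnz i hi)
        (Finset.dvd_prod_of_mem _ (mem_range.2 hl))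
    rcases h1 with h1 | h1
    · exact h1.trans (h4 i hi)
    · exact h1.trans (h4 j hj)
  have hA : H319R3.GC.Adm d m r := ⟨hd, hm, hadm, hc, hbig⟩
  have hGN : ∀ (S : Set ℤ) (σ : ℤ), (σ = 1 ∨ σ = -1) → ∀ N : ℕ,
      H319R3.DN.G S σ ((N : ℝ) + 1) =
        (Set.ncard {x : ℤ | x ∈ S ∧ 1 ≤ σ * x ∧ σ * x ≤ N} : ℝ) := by
    intro S σ hσ N
    unfold H319R3.DN.G
    congr 2
    ext x
    simp only [Set.mem_ofPred_eq]
    constructor
    · rintro ⟨h1, h2, h3⟩
      refine ⟨h1, by omega, ?_⟩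
      have h4 : (σ * x : ℤ) < (N : ℤ) + 1 := by exact_mod_cast h3
      omega
    · rintro ⟨h1, h2, h3⟩
      refine ⟨h1, by omega, ?_⟩
      have h4 : (σ * x : ℤ) < (N : ℤ) + 1 := by omega
      exact_mod_cast h4
  -- comparison of the two kinds of limits
  have hcomp : ∀ (S : Set ℤ) (σ : ℤ), (σ = 1 ∨ σ = -1) → ∀ δ : ℝ,
      Tendsto (fun X : ℝ => H319R3.DN.G S σ X / X) atTop (𝓝 δ) → HasDensity S σ δ := by
    intro S σ hσ δ hδ
    unfold HasDensity
    have h1 : Tendsto (fun N : ℕ => ((N : ℝ) + 1)) atTop atTop :=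
      tendsto_atTop_add_const_right _ _ tendsto_natCast_atTop_atTop
    have h2 := hδ.comp h1
    have h3 : Tendsto (fun N : ℕ => ((N : ℝ) + 1) / N) atTop (𝓝 1) := by
      have h4 : Tendsto (fun N : ℕ => 1 + 1 / (N : ℝ)) atTop (𝓝 (1 + 0)) :=
        tendsto_const_nhds.add tendsto_one_div_atTop_nhds_zero_nat
      rw [add_zero] at h4
      refine h4.congr' ?_
      filter_upwards [eventually_gt_atTop 0] with N hN
      have : (0 : ℝ) < N := by exact_mod_cast hN
      field_simp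
    have h5 := h2.mul h3
    rw [mul_one] at h5
    refine h5.congr' ?_
    filter_upwards [eventually_gt_atTop 0] with N hN
    have : (0 : ℝ) < N := by exact_mod_cast hN
    simp only [Function.comp]
    rw [hGN S σ hσ N]
    field_simp
  refine ⟨?_, ?_, ?_⟩
  · intro S hS
    obtain ⟨l, hl, hl2⟩ := H319R3.DN.density hA hi hj hij' (S := S) hS
    exact ⟨l 1, l (-1), hcomp S 1 (Or.inl rfl) _ (hl 1 (Or.inl rfl)),
      hcomp S (-1) (Or.inr rfl) _ (hl (-1) (Or.inr rfl)), hl2⟩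
  · intro S hS hdis σ hσ δ hδ
    have hδ' : ∀ n, Tendsto (fun X : ℝ => H319R3.DN.G (S n) σ X / X) atTop (𝓝 (δ n)) := by
      intro n
      obtain ⟨l, hl, -⟩ := H319R3.DN.density hA hi hj hij' (S := S n) (hS n)
      have h1 := hl σ hσ
      have h2 := hcomp (S n) σ hσ _ h1
      have h3 := tendsto_nhds_unique h2 (hδ n)
      rwa [h3] at h1
    obtain ⟨h1, h2⟩ := H319R3.DN.additive hA hi hj hij' hS hdis hσ hδ'
    exact ⟨h1, hcomp _ σ hσ _ h2⟩
  · intro B
    obtain ⟨C, hC, hmain⟩ := H319R3.GC.main hA B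
    refine ⟨C, hC, ?_⟩
    intro S hS y hy hSy σ hσ δ hδ
    refine le_of_tendsto hδ ?_
    filter_upwards [eventually_gt_atTop 0] with N hN
    have hN0 : (0 : ℝ) < N := by exact_mod_cast hN
    have hN1 : (1 : ℝ) ≤ N := by exact_mod_cast hN
    have hlog : 0 < Real.log y := Real.log_pos (by linarith)
    rw [div_le_iff₀ hN0]
    have h1 := hmain N y hN1 hy
    have hiter : ∀ (k : ℕ) (x : ℤ), x ∈ S → (H319R3.GC.Tm d m r)^[k] x ∈ S := by
      intro k
      induction k with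
      | zero => intro x hx; exact hx
      | succ k ih =>
        intro x hx
        rw [Function.iterate_succ_apply]
        exact ih _ ((hS x).1 hx)
    have hfin : {x : ℤ | |(x : ℝ)| ≤ (N : ℝ) ∧ ∀ n : ℕ,
        y < |(((H319R3.GC.Tm d m r)^[n] x : ℤ) : ℝ)|}.Finite := by
      refine (Set.finite_Icc (-(N : ℤ)) N).subset ?_
      rintro x ⟨hx, -⟩
      have h2 : |x| ≤ (N : ℤ) := by exact_mod_cast hx
      exact Set.mem_Icc.2 (abs_le.1 h2)
    have hsub : {x : ℤ | x ∈ S ∧ 1 ≤ σ * x ∧ σ * x ≤ N} ⊆ {x : ℤ | |(x : ℝ)| ≤ (N : ℝ) ∧ ∀ n : ℕ,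
        y < |(((H319R3.GC.Tm d m r)^[n] x : ℤ) : ℝ)|} := by
      rintro x ⟨hx, hx1, hx2⟩
      refine ⟨?_, fun n => hSy _ (hiter n x hx)⟩
      have h3 : |x| ≤ (N : ℤ) := by
        rcases hσ with rfl | rfl
        · rw [abs_le]; constructor <;> linarith
        · rw [abs_le]; constructor <;> linarith
      exact_mod_cast h3
    have h2 := Set.ncard_le_ncard hsub hfin
    have h3 : (Set.ncard {x : ℤ | x ∈ S ∧ 1 ≤ σ * x ∧ σ * x ≤ N} : ℝ) ≤ Set.ncard
        {x : ℤ | |(x : ℝ)| ≤ (N : ℝ) ∧ ∀ n : ℕ,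
          y < |(((H319R3.GC.Tm d m r)^[n] x : ℤ) : ℝ)|} := by exact_mod_cast h2
    calc (Set.ncard {x : ℤ | x ∈ S ∧ 1 ≤ σ * x ∧ σ * x ≤ N} : ℝ) ≤ C * N / Real.log y ^ B :=
          h3.trans h1
      _ = C / Real.log y ^ B * N := by ring


end Pool.Agent.Results.MP_39d40e_nt.NaturalDensities
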