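import Mathlib
import Pool.Agent.H319R3.DN.T13
import Pool.Agent.H319R3.PO.P13g
import Pool.Agent.H319R3.PO.P18

set_option autoImplicit false

/-!
Generalised Collatz maps of coprime type with `∏ |m_i / d| < 1`: trajectories joined by a positive
proportion of the integers.
-/

namespace Pool.Agent.Results.MP_39d40e_nt.PositiveClass

open Finset Filter Topology

/-- The generalised Collatz map `T(x) = (m_i x - r_i) / d` for `x ≡ i mod d`, `0 ≤ i < d`. -/
def T (d : ℕ) (m r : ℕ → ℤ) (x : ℤ) : ℤ := (m (x % d).toNat * x - r (x % d).toNat) / d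

/-- `S` is invariant: `x ∈ S` if and only if `T x ∈ S` (unions of classes of trajectories that
meet). -/
def Invariant (d : ℕ) (m r : ℕ → ℤ) (S : Set ℤ) : Prop := ∀ x : ℤ, x ∈ S ↔ T d m r x ∈ S

/-- `S` has natural density `δ` on the side `σ` (`σ = 1`: positive integers, `σ = -1`: negative
integers): `#{x ∈ S : 1 ≤ σ x ≤ N} / N → δ`. -/
def HasDensity (S : Set ℤ) (σ : ℤ) (δ : ℝ) : Prop :=
  Tendsto (fun N : ℕ => (Set.ncard {x : ℤ | x ∈ S ∧ 1 ≤ σ * x ∧ σ * x ≤ N} : ℝ) / N) atTop (𝓝 δ)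

/-- `T` of coprime type (`gcd(m_i, d) = 1`) with `Λ < 1`, that is `∏ |m_i / d| < 1`, and not all
`|m_i|` equal; `P = ∏ |m_i|`. There are `N`, a residue class `y₀` mod `P ^ N` and a number `C₀` such
that:
(1) every invariant set that contains an integer `z ≡ y₀ mod P ^ N` has natural densities on both
sides, and their sum is positive;
(2) if all `m_i > 0` and `z ≡ y₀ mod P ^ N`, `|z| > C₀`, is not periodic, then every invariant set
that contains `z` has positive natural density on the side of `z`. -/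
theorem result (d : ℕ) (hd : 2 ≤ d) (m r : ℕ → ℤ) (hm : ∀ i < d, IsCoprime (m i) (d : ℤ))
    (hr : ∀ i < d, r i ≡ i * m i [ZMOD d]) (hL : ∏ i ∈ range d, |(m i : ℝ) / d| < 1)
    (hne : ∃ i < d, ∃ j < d, |m i| ≠ |m j|) :
    ∃ (N : ℕ) (y₀ : ℤ) (C₀ : ℝ),
      (∀ S : Set ℤ, Invariant d m r S → ∀ z ∈ S, z ≡ y₀ [ZMOD (∏ i ∈ range d, |m i|) ^ N] →
        ∃ a b : ℝ, HasDensity S 1 a ∧ HasDensity S (-1) b ∧ 0 < a + b) ∧
      ((∀ i < d, 0 < m i) → ∀ S : Set ℤ, Invariant d m r S → ∀ z ∈ S,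
        z ≡ y₀ [ZMOD (∏ i ∈ range d, |m i|) ^ N] → C₀ < |(z : ℝ)| →
        (∀ p : ℕ, 1 ≤ p → (T d m r)^[p] z ≠ z) → ∃ δ : ℝ, 0 < δ ∧ HasDensity S z.sign δ) := by
  obtain ⟨i, hi, j, hj, hij⟩ := hne
  have hij' : (m i).natAbs ≠ (m j).natAbs := by
    intro hcon
    apply hij
    rw [Int.abs_eq_natAbs, Int.abs_eq_natAbs, hcon]
  have hd0 : (0 : ℝ) < d := by positivity
  have hadm : ∀ i < d, (d : ℤ) ∣ m i * i - r i := by
    intro i hi
    have h1 := (hr i hi).dvd
    rwa [mul_comm (i : ℤ)] at h1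
  have hc : ∏ i ∈ range d, (m i).natAbs < d ^ d := by
    have h1 : ∏ i ∈ range d, |(m i : ℝ) / d| = (∏ i ∈ range d, |(m i : ℝ)|) / (d : ℝ) ^ d := by
      simp only [abs_div, abs_of_pos hd0]
      rw [Finset.prod_div_distrib, Finset.prod_const, card_range]
    rw [h1, div_lt_one (by positivity)] at hL
    have h2 : ((∏ i ∈ range d, (m i).natAbs : ℕ) : ℝ) = ∏ i ∈ range d, |(m i : ℝ)| := by
      push_cast
      refine Finset.prod_congr rfl fun i _ => ?_
      rw [Nat.cast_natAbs]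
      push_cast
      rfl
    have h3 : ((∏ i ∈ range d, (m i).natAbs : ℕ) : ℝ) < ((d ^ d : ℕ) : ℝ) := by
      rw [h2]; push_cast; exact hL
    exact_mod_cast h3
  have hnz : ∀ i ∈ range d, 1 ≤ (m i).natAbs := by
    intro i hi
    rcases Nat.eq_zero_or_pos (m i).natAbs with h0 | h0
    · exfalso
      have h1 := hm i (mem_range.1 hi)
      rw [Int.natAbs_eq_zero.1 h0] at h1
      have h2 := isCoprime_zero_left.1 h1
      have h3 := Int.isUnit_iff.1 h2
      omega
    · exact h0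
  have hbig : 2 ≤ ∏ i ∈ range d, (m i).natAbs := by
    have h1 : 2 ≤ (m i).natAbs ∨ 2 ≤ (m j).natAbs := by
      have h2 := hnz i (mem_range.2 hi)
      have h3 := hnz j (mem_range.2 hj)
      omega
    have h4 : ∀ l < d, (m l).natAbs ≤ ∏ i ∈ range d, (m i).natAbs := by
      intro l hl
      exact Nat.le_of_dvd (Finset.prod_pos fun i hi => hnz i hi)
        (Finset.dvd_prod_of_mem _ (mem_range.2 hl))
    rcases h1 with h1 | h1
    · exact h1.trans (h4 i hi)
    · exact h1.trans (h4 j hj)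
  have hA : H319R3.GC.Adm d m r := ⟨hd, hm, hadm, hc, hbig⟩
  have hGN : ∀ (S : Set ℤ) (σ : ℤ), (σ = 1 ∨ σ = -1) → ∀ N : ℕ,
      H319R3.DN.G S σ ((N : ℝ) + 1) =
        (Set.ncard {x : ℤ | x ∈ S ∧ 1 ≤ σ * x ∧ σ * x ≤ N} : ℝ) := by
    intro S σ hσ N
    unfold H319R3.DN.G
    congr 2
    ext x
    simp only [Set.mem_ofPred_eq]
    constructor
    · rintro ⟨h1, h2, h3⟩
      refine ⟨h1, by omega, ?_⟩
      have h4 : (σ * x : ℤ) < (N : ℤ) + 1 := by exact_mod_cast h3
      omega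
    · rintro ⟨h1, h2, h3⟩
      refine ⟨h1, by omega, ?_⟩
      have h4 : (σ * x : ℤ) < (N : ℤ) + 1 := by omega
      exact_mod_cast h4
  -- comparison of the two kinds of limits
  have hcomp : ∀ (S : Set ℤ) (σ : ℤ), (σ = 1 ∨ σ = -1) → ∀ δ : ℝ,
      Tendsto (fun X : ℝ => H319R3.DN.G S σ X / X) atTop (𝓝 δ) → HasDensity S σ δ := by
    intro S σ hσ δ hδ
    unfold HasDensity
    have h1 : Tendsto (fun N : ℕ => ((N : ℝ) + 1)) atTop atTop :=
      tendsto_atTop_add_const_right _ _ tendsto_natCast_atTop_atTop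
    have h2 := hδ.comp h1
    have h3 : Tendsto (fun N : ℕ => ((N : ℝ) + 1) / N) atTop (𝓝 1) := by
      have h4 : Tendsto (fun N : ℕ => 1 + 1 / (N : ℝ)) atTop (𝓝 (1 + 0)) :=
        tendsto_const_nhds.add tendsto_one_div_atTop_nhds_zero_nat
      rw [add_zero] at h4
      refine h4.congr' ?_
      filter_upwards [eventually_gt_atTop 0] with N hN
      have : (0 : ℝ) < N := by exact_mod_cast hN
      field_simp
    have h5 := h2.mul h3
    rw [mul_one] at h5
    refine h5.congr' ?_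
    filter_upwards [eventually_gt_atTop 0] with N hN
    have : (0 : ℝ) < N := by exact_mod_cast hN
    simp only [Function.comp]
    rw [hGN S σ hσ N]
    field_simp
  have hdens : ∀ S : Set ℤ, Invariant d m r S → ∃ l : ℤ → ℝ, ∀ σ : ℤ, (σ = 1 ∨ σ = -1) →
      Tendsto (fun X : ℝ => H319R3.DN.G S σ X / X) atTop (𝓝 (l σ)) ∧ HasDensity S σ (l σ) := by
    intro S hS
    obtain ⟨l, hl, -⟩ := H319R3.DN.density hA hi hj hij' (S := S) hS
    exact ⟨l, fun σ hσ => ⟨hl σ hσ, hcomp S σ hσ _ (hl σ hσ)⟩⟩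
  have hnn : ∀ (S : Set ℤ) (σ : ℤ) (δ : ℝ), HasDensity S σ δ → 0 ≤ δ := by
    intro S σ δ hδ
    refine ge_of_tendsto' hδ ?_
    intro N
    positivity
  have hPP : ∀ n : ℕ, ((H319R3.GC.PP d m : ℕ) : ℤ) ^ n = (∏ i ∈ range d, |m i|) ^ n := by
    intro n
    congr 1
    unfold H319R3.GC.PP
    push_cast
    rfl
  obtain ⟨η, c, C0, N0, N, y₀, hNB, hN0, hN1, hU⟩ := H319R3.PO.good_class hA
  refine ⟨N, y₀, max C0 0, ?_, ?_⟩
  · intro S hS z hz hzy
    obtain ⟨l, hl⟩ := hdens S hS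
    have h1 := hl 1 (Or.inl rfl)
    have h2 := hl (-1) (Or.inr rfl)
    refine ⟨l 1, l (-1), h1.2, h2.2, ?_⟩
    have h4 := hnn S 1 _ h1.2
    have h5 := hnn S (-1) _ h2.2
    by_contra hcon
    have h6 : l 1 = 0 := by linarith
    have h7 : l (-1) = 0 := by linarith
    have hdvd : ((H319R3.GC.PP d m : ℕ) : ℤ) ^ N ∣ z - y₀ := by
      rw [hPP]
      exact hzy.symm.dvd
    obtain ⟨c', X₀, hc', hlow⟩ := H319R3.PO.harm_lower2 hA hNB (fun k hk => hU z hdvd k hk)
      hS hz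
    have hz1 := h1.1
    have hz2 := h2.1
    rw [h6] at hz1
    rw [h7] at hz2
    obtain ⟨X₁, hX₁⟩ := H319R3.PO.harm_small (Or.inl rfl) hz1 (ε := c' / 4) (by positivity)
    obtain ⟨X₂, hX₂⟩ := H319R3.PO.harm_small (Or.inr rfl) hz2 (ε := c' / 4) (by positivity)
    set X : ℕ := max (max X₀ X₁) (max X₂ 2) with hX
    have e0 := hlow X (by omega)
    have e1 := hX₁ X (by omega)
    have e2 := hX₂ X (by omega)
    have e3 : 0 < Real.log X := Real.log_pos (by
      have : 2 ≤ X := by omega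
      have : (2 : ℝ) ≤ X := by exact_mod_cast this
      linarith)
    nlinarith
  · intro hpos S hS z hz hzy hzC hper
    obtain ⟨l, hl⟩ := hdens S hS
    have hz0 : z ≠ 0 := by
      rintro rfl
      have := le_max_right C0 0
      simp at hzC
    have hσ : z.sign = 1 ∨ z.sign = -1 := by
      rcases lt_or_gt_of_ne hz0 with h | h
      · right; exact Int.sign_eq_neg_one_of_neg h
      · left; exact Int.sign_eq_one_of_pos h
    have hcs : 0 < z.sign * z := by
      rw [Int.sign_mul_self_eq_abs]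
      exact abs_pos.2 hz0
    have h1 := hl z.sign hσ
    refine ⟨l z.sign, ?_, h1.2⟩
    have h2 := hnn S z.sign _ h1.2
    rcases h2.lt_or_eq with h3 | h3
    · exact h3
    · exfalso
      have hdvd : ((H319R3.GC.PP d m : ℕ) : ℤ) ^ N ∣ z - y₀ := by
        rw [hPP]
        exact hzy.symm.dvd
      obtain ⟨c', X₀, hc', -, hlow⟩ := H319R3.PO.harm_lower hA hNB
        (lt_of_le_of_lt (le_max_left C0 0) hzC) (fun k hk => hU z hdvd k hk) hper hS hz
      have hz1 := h1.1
      rw [← h3] at hz1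
      obtain ⟨X₁, hX₁⟩ := H319R3.PO.harm_small hσ hz1 (ε := c' / 4) (by positivity)
      set X : ℕ := max (max X₀ X₁) 2 with hX
      have e0 := hlow hpos z.sign hσ hcs X (by omega)
      have e1 := hX₁ X (by omega)
      have e3 : 0 < Real.log X := Real.log_pos (by
        have : 2 ≤ X := by omega
        have : (2 : ℝ) ≤ X := by exact_mod_cast this
        linarith)
      nlinarith

end Pool.Agent.Results.MP_39d40e_nt.PositiveClass
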